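import Pool.Agent.H59.KA.Stmts
import Pool.Agent.H59.KP.EVV

/-!
# Project KA, module QEF: the mean of `Ph` after a short time
-/

set_option autoImplicit false

open MeasureTheory Set Filter Topology
open scoped ContDiff

namespace Pool.Agent.H32.KA

open Pool.Agent.H84 hiding cv mn
open Pool.Agent.H84.Sym Pool.Agent.H84.Sym.P2x Pool.Agent.H19.KL
open Pool.Agent.H73.KG Pool.Agent.H20.KH Pool.Agent.H78.KP Pool.Agent.H59.KG Pool.Agent.H59.KP
open Pool.Agent.H59.KA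

variable {E : Type} [NormedAddCommGroup E] [InnerProductSpace ℝ E]
    [FiniteDimensional ℝ E] [MeasurableSpace E] [BorelSpace E]

/-- mean of an affine combination -/
theorem qe_aff (hBAY : BAYStmt E) {U : E → ℝ} {t : ℝ} (hU : PP U t) {r : ℝ} (hr : 0 ≤ r)
    {F G : E → ℝ} (hF : GC F) (hG : GC G) (c0 c1 c2 : ℝ) :
    EX U r (fun θ => c0 + c1 * F θ + c2 * G θ) = c0 + c1 * EX U r F + c2 * EX U r G := by
  obtain ⟨-, hadd, hmul, hconst, -, -, -⟩ := hBAY U t hU r hr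
  have h1 : GC (fun θ => c1 * F θ) := GC.mul (GC.const c1) hF
  have h2 : GC (fun θ => c2 * G θ) := GC.mul (GC.const c2) hG
  have h0 : GC (fun _ : E => c0) := GC.const c0
  rw [hadd (fun θ => c0 + c1 * F θ) _ (GC.add h0 h1) h2, hadd (fun _ => c0) _ h0 h1, hconst,
    hmul, hmul]

omit [InnerProductSpace ℝ E] [FiniteDimensional ℝ E] [MeasurableSpace E] [BorelSpace E] in
theorem qe_gcaff {F G : E → ℝ} (hF : GC F) (hG : GC G) (c0 c1 c2 : ℝ) :
    GC (fun θ => c0 + c1 * F θ + c2 * G θ) :=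
  GC.add (GC.add (GC.const c0) (GC.mul (GC.const c1) hF)) (GC.mul (GC.const c2) hG)

theorem qe_sqrt {q r : ℝ} (hq : 0 ≤ q) (hr : 0 < r) :
    Real.sqrt q ≤ (Real.sqrt r + q / Real.sqrt r) / 2 := by
  have h1 : 0 < Real.sqrt r := Real.sqrt_pos.2 hr
  have h2 := Real.sq_sqrt hq
  have h3 : (Real.sqrt r + q / Real.sqrt r) / 2 - Real.sqrt q =
      (Real.sqrt q - Real.sqrt r) ^ 2 / (2 * Real.sqrt r) := by
    nth_rewrite 1 [← h2]
    field_simp
    ring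
  have h4 : 0 ≤ (Real.sqrt q - Real.sqrt r) ^ 2 / (2 * Real.sqrt r) := by positivity
  linarith

theorem qe_v {ι : Type} [Fintype ι] (b : OrthonormalBasis ι ℝ E) (U : E → ℝ) (B : Matrix ι ι ℝ)
    (c : ι → ℝ) (r : ℝ) (θ : E) {δ : ℝ} (hδ : 0 < δ) :
    ∑ i, (qv b B c (pw U r θ) i) ^ 2 ≤ (1 + δ) * ∑ i, (qv b B c U i) ^ 2 +
      (1 + 1 / δ) * ((∑ i, ∑ j, (B i j) ^ 2) * md b U r θ) := by
  have h1 : ∀ i, (qv b B c (pw U r θ) i) ^ 2 ≤ (1 + δ) * (qv b B c U i) ^ 2 +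
      (1 + 1 / δ) * ((∑ j, (B i j) ^ 2) * md b U r θ) := by
    intro i
    have e1 : qv b B c (pw U r θ) i = qv b B c U i +
        ∑ j, B i j * (mn (pw U r θ) (b j) - mn U (b j)) := by
      unfold qv
      simp only [mul_sub, Finset.sum_sub_distrib]
      ring
    have e2 : (∑ j, B i j * (mn (pw U r θ) (b j) - mn U (b j))) ^ 2 ≤
        (∑ j, (B i j) ^ 2) * md b U r θ := Finset.sum_mul_sq_le_sq_mul_sq _ _ _
    rw [e1]
    set x := qv b B c U i
    set y := ∑ j, B i j * (mn (pw U r θ) (b j) - mn U (b j))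
    have e3 : (x + y) ^ 2 ≤ (1 + δ) * x ^ 2 + (1 + 1 / δ) * y ^ 2 := by
      have h5 : (1 + δ) * x ^ 2 + (1 + 1 / δ) * y ^ 2 - (x + y) ^ 2 = (δ * x - y) ^ 2 / δ := by
        field_simp
        ring
      have h := div_nonneg (sq_nonneg (δ * x - y)) hδ.le
      linarith
    have e4 : 0 ≤ 1 + 1 / δ := by positivity
    nlinarith [mul_le_mul_of_nonneg_left e2 e4]
  calc ∑ i, (qv b B c (pw U r θ) i) ^ 2
      ≤ ∑ i, ((1 + δ) * (qv b B c U i) ^ 2 +
          (1 + 1 / δ) * ((∑ j, (B i j) ^ 2) * md b U r θ)) :=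
        Finset.sum_le_sum fun i _ => h1 i
    _ = _ := by
      rw [Finset.sum_add_distrib, ← Finset.mul_sum, ← Finset.mul_sum, ← Finset.sum_mul]

theorem qe_md {ι : Type} [Fintype ι] (b : OrthonormalBasis ι ℝ E) (U : E → ℝ) (r : ℝ) (θ : E) :
    0 ≤ md b U r θ := Finset.sum_nonneg fun _ _ => sq_nonneg _

omit [FiniteDimensional ℝ E] [MeasurableSpace E] [BorelSpace E] in
theorem qe_card {ι : Type} [Fintype ι] (b : OrthonormalBasis ι ℝ E) :
    (Fintype.card ι : ℝ) = (Module.finrank ℝ E : ℝ) := by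
  rw [Module.finrank_eq_card_basis b.toBasis]

/-- whitened measures have covariance at most one -/
theorem qe_cov (hBAS : BASStmt E) {ι : Type} [Fintype ι] [DecidableEq ι]
    {b : OrthonormalBasis ι ℝ E} {t : ℝ} {ρ : ι → ℝ} {U : E → ℝ} (hW : WC b t ρ U) :
    CovLe U 1 := by
  obtain ⟨-, -, -, -, -, -, h7⟩ := hBAS
  refine h7 U t hW.pp ι b 1 ?_
  have e : (1:ℝ) • (1 : Matrix ι ι ℝ) - cm b U = Matrix.diagonal ρ := by
    rw [hW.cov, one_smul, ← Matrix.diagonal_one, Matrix.diagonal_sub]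
    congr 1
    funext i
    ring
  rw [e]
  exact Matrix.PosSemidef.diagonal fun i => (hW.pos i).le

/-- bounds along the channel: `√qd`, and the means of `qd` and `md` -/
theorem qe_bd (hQMO : QMOStmt E) (hQCA : QCAStmt E) {t0 : ℝ} (ht0 : 0 < t0) {t : ℝ}
    (ht : t0 ≤ t) {U : E → ℝ} (hU : PP U t) (hc : CovLe U 1) {ι : Type} [Fintype ι]
    (b : OrthonormalBasis ι ℝ E) :
    (∀ (r : ℝ) (θ : E), 0 ≤ r → 0 ≤ qd b U r θ ∧
      Real.sqrt (qd b U r θ) ≤ 2 * (Module.finrank ℝ E : ℝ) / t0 ∧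
      CovLe (pw U r θ) (1 + Real.sqrt (qd b U r θ))) ∧
    ∀ r : ℝ, 0 < r → EX U r (fun θ => qd b U r θ) ≤ 9 * (Module.finrank ℝ E : ℝ) ^ 3 / t0 ^ 3 * r ∧
      EX U r (fun θ => md b U r θ) ≤ (Module.finrank ℝ E : ℝ) ^ 2 / t0 ^ 2 * r := by
  have hn0 : (0:ℝ) ≤ (Module.finrank ℝ E : ℝ) := Nat.cast_nonneg _
  constructor
  · intro r θ hr
    obtain ⟨h1, h2, h3⟩ := hQCA U t hU hc ι b r θ hr
    refine ⟨h1, ?_, h3⟩
    rw [qe_card b] at h2
    have h4 : Real.sqrt (qd b U r θ) ≤ 2 * (Module.finrank ℝ E : ℝ) / t := by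
      refine Real.sqrt_le_iff.2 ⟨by have := ht0.trans_le ht; positivity, h2.trans (le_of_eq ?_)⟩
      ring
    exact h4.trans (by gcongr)
  · intro r hr
    obtain ⟨-, -, h3⟩ := hQMO U t hU ι b
    obtain ⟨h4, h5⟩ := h3 r hr
    rw [qe_card b] at h4 h5
    have ht' := ht0.trans_le ht
    exact ⟨h4.trans (by gcongr), h5.trans (by gcongr)⟩

theorem qe_num {κ b v K Q A M y z S : ℝ} (hκ : 0 ≤ κ) (hb : 0 ≤ b) (hv : 0 ≤ v) (hK : 0 ≤ K)
    (hQ : 0 ≤ Q) (hA : 0 ≤ A) (hM : 0 ≤ M) (hy : 0 < y) (hy1 : y ≤ 1) (hyz : y ≤ z)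
    (hS : S = (2 * κ + 3) * b + (1 + y) * v) :
    (1 + K * y / 2) * S + K * Q / 2 * y * S + A * M * b * (y * y + y) ≤
      (2 * κ + 3) * (b + v) * (1 + (1 + K * (1 + Q) + 2 * A * M) * z) := by
  have hSle : S ≤ (1 + y) * ((2 * κ + 3) * (b + v)) := by
    rw [hS]
    have e1 : 0 ≤ (2 * κ + 3) * b * y := by positivity
    have e2 : 0 ≤ (1 + y) * v * (2 * κ + 2) := by positivity
    have e3 : (1 + y) * ((2 * κ + 3) * (b + v)) = (2 * κ + 3) * b + (1 + y) * v +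
      ((2 * κ + 3) * b * y + (1 + y) * v * (2 * κ + 2)) := by ring
    rw [e3]
    linarith
  set N : ℝ := (2 * κ + 3) * (b + v) with hN
  have hN0 : 0 ≤ N := by positivity
  have hBN : b ≤ N := by
    have e1 : 0 ≤ 2 * κ * (b + v) := by positivity
    rw [hN]
    linarith
  have h5 : (1 + K * y / 2) * S + K * Q / 2 * y * S ≤ (1 + (1 + K * (1 + Q)) * y) * N := by
    have e1 : (1 + K * y / 2) * S + K * Q / 2 * y * S = (1 + K * (1 + Q) / 2 * y) * S := by ring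
    rw [e1]
    have e2 : 0 ≤ 1 + K * (1 + Q) / 2 * y := by positivity
    refine (mul_le_mul_of_nonneg_left hSle e2).trans ?_
    rw [← mul_assoc]
    refine mul_le_mul_of_nonneg_right ?_ hN0
    have e3 : 0 ≤ K * (1 + Q) / 2 * y := by positivity
    have e4 := mul_le_mul_of_nonneg_left hy1 e3
    have e5 : (1 + K * (1 + Q) / 2 * y) * (1 + y) = 1 + y + K * (1 + Q) / 2 * y +
      K * (1 + Q) / 2 * y * y := by ring
    rw [e5]
    linarith
  have h6 : A * M * b * (y * y + y) ≤ 2 * A * M * y * N := by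
    have e1 : y * y + y ≤ 2 * y := by
      have := mul_le_mul_of_nonneg_left hy1 hy.le
      linarith
    calc A * M * b * (y * y + y) ≤ A * M * N * (2 * y) := by gcongr
      _ = _ := by ring
  have h7 : (1 + (1 + K * (1 + Q)) * y) * N + 2 * A * M * y * N ≤
      N * (1 + (1 + K * (1 + Q) + 2 * A * M) * z) := by
    have e1 : (1 + (1 + K * (1 + Q)) * y) * N + 2 * A * M * y * N =
        N * (1 + (1 + K * (1 + Q) + 2 * A * M) * y) := by ring
    rw [e1]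
    gcongr
  linarith

/-- module QEF -/
theorem qef_thm (hQGN : QGNStmt E) (hQGB : QGBStmt E) (hQMO : QMOStmt E) (hQPH : QPHStmt)
    (hQCA : QCAStmt E) (hT3S : T3SStmt E) (hDYN : DYNStmt E) (hBAY : BAYStmt E)
    (hBAS : BASStmt E) (hPWB : PWBStmt E) (hRGC : RGCStmt E) (hRGP : RGPStmt E) : QEFStmt E := by
  intro t0 ht0 ht01
  set n : ℝ := (Module.finrank ℝ E : ℝ) with hn
  set X : ℝ := 2 * n / t0 with hX
  set K : ℝ := 3 + 3 * X + X ^ 2 with hK
  set Q1 : ℝ := 9 * n ^ 3 / t0 ^ 3 with hQ1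
  set M1 : ℝ := n ^ 2 / t0 ^ 2 with hM1
  set A3 : ℝ := (1 + X) ^ 3 with hA3
  have hn0 : 0 ≤ n := Nat.cast_nonneg _
  have hX0 : 0 ≤ X := by positivity
  have hK0 : 0 ≤ K := by positivity
  have hQ0 : 0 ≤ Q1 := by positivity
  have hM0 : 0 ≤ M1 := by positivity
  have hA0 : 0 ≤ A3 := by positivity
  refine ⟨1 + K * (1 + Q1) + 2 * A3 * M1, by
    have : 0 ≤ K * (1 + Q1) + 2 * A3 * M1 := by positivity
    linarith, ?_⟩
  intro κ hκ hTK t ht ht1 ι _ _ b ρ U hW B c e s hB he0 he1 hs hs1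
  have hU : PP U t := hW.pp
  have hc : CovLe U 1 := qe_cov hBAS hW
  obtain ⟨hbd1, hbd2⟩ := qe_bd hQMO hQCA ht0 ht hU hc b
  obtain ⟨hqdR, hmdR, -⟩ := hQMO U t hU ι b
  set Y : ι → ℝ := fun i => ρ i + e with hY
  have hY2 : ∀ i, 0 ≤ Y i ∧ Y i ≤ 2 := fun i =>
    ⟨add_nonneg (hW.pos i).le he0, by have := hW.le i; simp only [hY]; linarith⟩
  obtain ⟨hGr, hgen⟩ := hQGN U t hU ι b Y B c hB
  set G : ℝ → E → ℝ := fun r θ => Ph (cm b (pw U r θ) + Matrix.diagonal Y) B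
    (qv b B c (pw U r θ)) with hG
  set BB2 : ℝ := ∑ i, ∑ j, (B i j) ^ 2 with hBB
  set V2 : ℝ := ∑ i, (qv b B c U i) ^ 2 with hV2
  have hBB0 : 0 ≤ BB2 := Finset.sum_nonneg fun i _ => Finset.sum_nonneg fun j _ => sq_nonneg _
  have hV20 : 0 ≤ V2 := Finset.sum_nonneg fun i _ => sq_nonneg _
  have hN2 : N2 B (qv b B c U) = BB2 + V2 := rfl
  have hκ3 : 0 ≤ 2 * κ + 3 := by linarith
  -- pointwise bound of the generator
  have hpt : ∀ r : ℝ, 0 < r → ∀ θ : E, gen b U G r θ ≤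
      (1 + K * Real.sqrt r / 2) * ((2 * κ + 3) * BB2 + (1 + Real.sqrt r) * V2) +
      (K / (2 * Real.sqrt r) * ((2 * κ + 3) * BB2 + (1 + Real.sqrt r) * V2)) * qd b U r θ +
      (A3 * ((1 + 1 / Real.sqrt r) * BB2)) * md b U r θ := by
    intro r hr θ
    have hy : 0 < Real.sqrt r := Real.sqrt_pos.2 hr
    obtain ⟨hq0, hqX, hcov⟩ := hbd1 r θ hr.le
    set x := Real.sqrt (qd b U r θ) with hx
    have hx0 : 0 ≤ x := Real.sqrt_nonneg _
    have hPt : PP (pw U r θ) (t + r) := (hPWB U t hU).1 r θ hr.le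
    have hPt0 : PP (pw U r θ) t0 := hBAS.1 _ _ t0 hPt ht0 (by linarith)
    have hT3 : T3L (pw U r θ) ((1 + x) ^ 3 * κ) :=
      hT3S t0 κ ht0 hκ hTK (pw U r θ) (1 + x) hPt0 (by linarith) hcov
    have h1 := hQGB (pw U r θ) (t + r) hPt ι b Y B (qv b B c (pw U r θ)) (1 + x) κ hB hY2
      (by linarith) hcov hκ hT3
    rw [hgen r θ hr]
    refine h1.trans ?_
    have h2 := qe_v b U B c r θ hy
    set S : ℝ := (2 * κ + 3) * BB2 + (1 + Real.sqrt r) * V2 with hS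
    have hS0 : 0 ≤ S := by positivity
    have hmd := qe_md b U r θ
    set Z : ℝ := (1 + 1 / Real.sqrt r) * (BB2 * md b U r θ) with hZ
    have hZ0 : 0 ≤ Z := by positivity
    have h3 : (2 * κ + 3) * BB2 + ∑ i, (qv b B c (pw U r θ) i) ^ 2 ≤ S + Z := by
      rw [hS, hZ]
      linarith
    have hx1 : 0 ≤ (1 + x) ^ 3 := by positivity
    have h4 : (1 + x) ^ 3 ≤ 1 + K * x := by
      have e1 : (1 + x) ^ 3 = 1 + (3 + 3 * x + x ^ 2) * x := by ring
      have e2 : 3 + 3 * x + x ^ 2 ≤ K := by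
        rw [hK]
        gcongr
      have e3 := mul_le_mul_of_nonneg_right e2 hx0
      rw [e1]
      linarith
    have h5 : (1 + x) ^ 3 ≤ A3 := by
      rw [hA3]
      gcongr
    have h6 : x ≤ (Real.sqrt r + qd b U r θ / Real.sqrt r) / 2 := qe_sqrt hq0 hr
    calc (1 + x) ^ 3 * ((2 * κ + 3) * BB2 + ∑ i, (qv b B c (pw U r θ) i) ^ 2)
        ≤ (1 + x) ^ 3 * (S + Z) := mul_le_mul_of_nonneg_left h3 hx1
      _ = (1 + x) ^ 3 * S + (1 + x) ^ 3 * Z := by ring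
      _ ≤ (1 + K * ((Real.sqrt r + qd b U r θ / Real.sqrt r) / 2)) * S + A3 * Z := by
          refine add_le_add (mul_le_mul_of_nonneg_right (h4.trans ?_) hS0)
            (mul_le_mul_of_nonneg_right h5 hZ0)
          have := mul_le_mul_of_nonneg_left h6 hK0
          linarith
      _ = _ := by
          rw [hZ]
          field_simp
          ring
  -- the mean of the generator
  have hle : ∀ r ∈ Ioo 0 s, EX U r (gen b U G r) ≤
      (2 * κ + 3) * (BB2 + V2) * (1 + (1 + K * (1 + Q1) + 2 * A3 * M1) * Real.sqrt s) := by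
    intro r hr
    have hy : 0 < Real.sqrt r := Real.sqrt_pos.2 hr.1
    obtain ⟨-, -, -, -, hmono, -, -⟩ := hBAY U t hU r hr.1.le
    have hqdG : GC (fun θ => qd b U r θ) := (hRGC.2.2.2.2.2.1 _ hqdR r hr.1).1
    have hmdG : GC (fun θ => md b U r θ) := (hRGC.2.2.2.2.2.1 _ hmdR r hr.1).1
    refine (hmono _ _ (trp_gen hRGC hRGP hU hGr hr.1 b) (qe_gcaff hqdG hmdG _ _ _)
      (hpt r hr.1)).trans ?_
    rw [qe_aff hBAY hU hr.1.le hqdG hmdG]
    obtain ⟨hE1, hE2⟩ := hbd2 r hr.1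
    set S : ℝ := (2 * κ + 3) * BB2 + (1 + Real.sqrt r) * V2 with hS
    have hS0 : 0 ≤ S := by positivity
    have h1 : K / (2 * Real.sqrt r) * S * EX U r (fun θ => qd b U r θ) ≤
        K / (2 * Real.sqrt r) * S * (Q1 * r) :=
      mul_le_mul_of_nonneg_left hE1 (by positivity)
    have h2 : A3 * ((1 + 1 / Real.sqrt r) * BB2) * EX U r (fun θ => md b U r θ) ≤
        A3 * ((1 + 1 / Real.sqrt r) * BB2) * (M1 * r) :=
      mul_le_mul_of_nonneg_left hE2 (by positivity)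
    have hrr : r = Real.sqrt r * Real.sqrt r := (Real.mul_self_sqrt hr.1.le).symm
    have h3 : K / (2 * Real.sqrt r) * S * (Q1 * r) = K * Q1 / 2 * Real.sqrt r * S := by
      nth_rewrite 2 [hrr]
      field_simp
    have h4 : A3 * ((1 + 1 / Real.sqrt r) * BB2) * (M1 * r) =
        A3 * M1 * BB2 * (Real.sqrt r * Real.sqrt r + Real.sqrt r) := by
      nth_rewrite 2 [hrr]
      field_simp
    rw [h3] at h1
    rw [h4] at h2
    set y := Real.sqrt r with hyd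
    have hys : y ≤ Real.sqrt s := Real.sqrt_le_sqrt hr.2.le
    have hy1 : y ≤ 1 := Real.sqrt_le_iff.2 ⟨zero_le_one, by linarith [hr.2]⟩
    have h5 := qe_num hκ hBB0 hV20 hK0 hQ0 hA0 hM0 hy hy1 hys hS
    linarith
  -- integration
  obtain ⟨hder, hcont, h0⟩ := hDYN U t hU G hGr
  have hsub : Icc (0:ℝ) s ⊆ Ici 0 := fun x hx => hx.1
  obtain ⟨z, hz, hz2⟩ := exists_hasDerivAt_eq_slope (fun r => EX U r (G r))
    (fun r => EX U r (gen b U G r)) hs (hcont.mono hsub) fun r hr => hder ι b r hr.1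
  have h1 := hle z hz
  rw [hz2, sub_zero, div_le_iff₀ hs] at h1
  have h2 : EX U 0 (G 0) = Ph ((1 + e) • (1 : Matrix ι ι ℝ)) B (qv b B c U) := by
    rw [h0]
    simp only [hG]
    rw [(hPWB U t hU).2.2, hW.cov, Matrix.diagonal_add]
    congr 1
    rw [← Matrix.diagonal_one, ← Matrix.diagonal_smul]
    congr 1
    funext i
    simp only [hY, Pi.smul_apply, smul_eq_mul, mul_one]
    ring
  have h3 : Ph ((1 + e) • (1 : Matrix ι ι ℝ)) B (qv b B c U) ≤ (1 + e) ^ 2 * (BB2 + V2) := by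
    rw [(hQPH ι (1 : Matrix ι ι ℝ) B (qv b B c U) hB).2.1 (1 + e)]
    have : (1 + e) * V2 ≤ (1 + e) ^ 2 * V2 := by
      refine mul_le_mul_of_nonneg_right ?_ hV20
      nlinarith
    rw [mul_add]
    linarith
  have h4 : EX U s (G s) - EX U 0 (G 0) ≤ (2 * κ + 3) * (BB2 + V2) *
    (1 + (1 + K * (1 + Q1) + 2 * A3 * M1) * Real.sqrt s) * s := h1
  rw [hN2]
  have h5 : EX U s (G s) ≤ (1 + e) ^ 2 * (BB2 + V2) + (2 * κ + 3) * (BB2 + V2) *
    (1 + (1 + K * (1 + Q1) + 2 * A3 * M1) * Real.sqrt s) * s := by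
    rw [h2] at h4
    linarith
  refine h5.trans (le_of_eq ?_)
  ring

end Pool.Agent.H32.KA
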