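import Pool.Agent.H32.KA.QEF

/-!
# Project KA, module QEV: the decrease of the variance of quadratic polynomials
-/

set_option autoImplicit false

open MeasureTheory Set Filter Topology
open scoped ContDiff

namespace Pool.Agent.H32.KA

open Pool.Agent.H84 hiding cv mn
open Pool.Agent.H84.Sym Pool.Agent.H84.Sym.P2x Pool.Agent.H19.KL
open Pool.Agent.H73.KG Pool.Agent.H20.KH Pool.Agent.H78.KP Pool.Agent.H59.KG Pool.Agent.H59.KP
open Pool.Agent.H59.KA

variable {E : Type} [NormedAddCommGroup E] [InnerProductSpace ℝ E]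
    [FiniteDimensional ℝ E] [MeasurableSpace E] [BorelSpace E]

/-- covariance with a linear combination of coordinates -/
theorem qv_lin {V : E → ℝ} {t : ℝ} (hV : PP V t) {f : E → ℝ} (hf : GC f) {ι : Type} [Fintype ι]
    (b : OrthonormalBasis ι ℝ E) (w : ι → ℝ) :
    cv V f (li (∑ i, w i • b i)) = ∑ i, w i * cv V f (li (b i)) := by
  obtain ⟨C, hC⟩ := hV.1
  have e1 : ∀ x, li (∑ i, w i • b i) x = ∑ i, w i * li (b i) x := by
    intro x
    unfold li
    rw [sum_inner]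
    exact Finset.sum_congr rfl fun i _ => real_inner_smul_left _ _ _
  have i1 : ∀ i, Integrable (fun x => f x * li (b i) x) (mu V) := fun i =>
    (GC.mul hf (trp_li (b i))).integrable hC
  have i2 : ∀ i, Integrable (fun x => li (b i) x) (mu V) := fun i => (trp_li (b i)).integrable hC
  unfold cv
  have e2 : ∫ x, f x * li (∑ i, w i • b i) x ∂(mu V) = ∑ i, w i * ∫ x, f x * li (b i) x ∂(mu V) := by
    have : ∀ x, f x * li (∑ i, w i • b i) x = ∑ i, w i * (f x * li (b i) x) := by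
      intro x
      rw [e1, Finset.mul_sum]
      exact Finset.sum_congr rfl fun i _ => by ring
    simp only [this]
    rw [integral_finsetSum _ fun i _ => (i1 i).const_mul (w i)]
    exact Finset.sum_congr rfl fun i _ => integral_const_mul _ _
  have e3 : ∫ x, li (∑ i, w i • b i) x ∂(mu V) = ∑ i, w i * ∫ x, li (b i) x ∂(mu V) := by
    simp only [e1]
    rw [integral_finsetSum _ fun i _ => (i2 i).const_mul (w i)]
    exact Finset.sum_congr rfl fun i _ => integral_const_mul _ _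
  rw [e2, e3, Finset.mul_sum, ← Finset.sum_sub_distrib]
  exact Finset.sum_congr rfl fun i _ => by ring

omit [FiniteDimensional ℝ E] [MeasurableSpace E] [BorelSpace E] in
theorem qv_norm {ι : Type} [Fintype ι] (b : OrthonormalBasis ι ℝ E) (w : ι → ℝ) :
    ‖∑ i, w i • b i‖ ^ 2 = ∑ i, (w i) ^ 2 := by
  rw [← real_inner_self_eq_norm_sq, b.orthonormal.inner_sum]
  exact Finset.sum_congr rfl fun i _ => by simp [pow_two]

/-- duality -/
theorem qv_dual (hBAS : BASStmt E) {V : E → ℝ} {t : ℝ} (hV : PP V t) {a : ℝ} (ha : CovLe V a)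
    {f : E → ℝ} (hf : GC f) {ι : Type} [Fintype ι] (b : OrthonormalBasis ι ℝ E) :
    ∑ i, (cv V f (li (b i))) ^ 2 ≤ a * cv V f f := by
  set w : ι → ℝ := fun i => cv V f (li (b i)) with hw
  set W : ℝ := ∑ i, (w i) ^ 2 with hW
  have hW0 : 0 ≤ W := Finset.sum_nonneg fun i _ => sq_nonneg _
  set u : E := ∑ i, w i • b i with hu
  have h1 : cv V f (li u) = W := by
    rw [hu, qv_lin hV hf b w, hW]
    exact Finset.sum_congr rfl fun i _ => by rw [hw]; ring
  have h2 : ‖u‖ ^ 2 = W := qv_norm b w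
  obtain ⟨h3, h4, -, -⟩ := hBAS.2.2.2.1 V t hV f (li u) hf (trp_li u)
  have h5 : cv V (li u) (li u) ≤ a * W := by rw [← h2]; exact ha u
  rw [h1] at h3
  have h6 : W ^ 2 ≤ W * (a * cv V f f) := by
    calc W ^ 2 ≤ cv V f f * cv V (li u) (li u) := h3
      _ ≤ cv V f f * (a * W) := mul_le_mul_of_nonneg_left h5 h4
      _ = _ := by ring
  rcases hW0.eq_or_lt with h | h
  · change W ≤ a * cv V f f
    rw [← h]
    have h7 := (hBAS.2.2.2.1 V t hV f f hf hf).2.1
    by_cases hE : ∃ v : E, ‖v‖ = 1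
    · obtain ⟨v, hv⟩ := hE
      have h8 := ha v
      rw [hv] at h8
      have h9 := (hBAS.2.2.2.1 V t hV (li v) (li v) (trp_li v) (trp_li v)).2.1
      have : 0 ≤ a := by linarith
      positivity
    · -- the space is trivial, so is the variance
      have hz : ∀ v : E, v = 0 := by
        intro v
        by_contra hne
        refine hE ⟨(‖v‖)⁻¹ • v, ?_⟩
        rw [norm_smul, norm_inv, norm_norm, inv_mul_cancel₀ (norm_ne_zero_iff.2 hne)]
      have : IsProbabilityMeasure (mu V) := hV.2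
      have e1 : ∀ x, f x = f 0 := fun x => by rw [hz x]
      have e2 : cv V f f = 0 := by
        unfold cv
        simp only [e1]
        rw [integral_const, integral_const]
        simp
      rw [e2, mul_zero]
  · rw [pow_two] at h6
    exact le_of_mul_le_mul_left h6 h

/-- the trace of `B A B` -/
theorem qv_tr {V : E → ℝ} {t : ℝ} (hV : PP V t) {a : ℝ} (ha : CovLe V a) {ι : Type} [Fintype ι]
    (b : OrthonormalBasis ι ℝ E) (B : Matrix ι ι ℝ) (hB : SY B) :
    (B * cm b V * B).trace ≤ a * ∑ i, ∑ j, (B i j) ^ 2 := by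
  have h1 : ∀ i, (B * cm b V * B) i i = cv V (li (∑ j, B i j • b j)) (li (∑ j, B i j • b j)) := by
    intro i
    rw [qv_lin hV (trp_li _) b (fun j => B i j)]
    rw [Matrix.mul_apply]
    refine Finset.sum_congr rfl fun k _ => ?_
    rw [hB k i, mul_comm]
    congr 1
    rw [Matrix.mul_apply]
    have e : cv V (li (∑ j, B i j • b j)) (li (b k)) = cv V (li (b k)) (li (∑ j, B i j • b j)) := by
      unfold cv
      congr 1
      · exact integral_congr_ae (Eventually.of_forall fun x => mul_comm _ _)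
      · exact mul_comm _ _
    rw [e, qv_lin hV (trp_li _) b (fun j => B i j)]
    refine Finset.sum_congr rfl fun j _ => ?_
    congr 1
    change cv V (li (b j)) (li (b k)) = _
    unfold cv
    congr 1
    · exact integral_congr_ae (Eventually.of_forall fun x => mul_comm _ _)
    · exact mul_comm _ _
  unfold Matrix.trace
  rw [Finset.mul_sum]
  refine Finset.sum_le_sum fun i _ => ?_
  rw [Matrix.diag_apply, h1 i, ← qv_norm b (fun j => B i j)]
  exact ha _

theorem qv_num {t0 b v Q M X y : ℝ} (ht : 0 < t0) (hb : 0 ≤ b) (hv : 0 ≤ v)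
    (hQ : 0 ≤ Q) (hM : 0 ≤ M) (hX : 0 ≤ X) (hy : 0 < y) (hy1 : y ≤ 1) :
    y / 2 * (4 / t0 * (b / t0 + 2 * v)) + 1 / (2 * y) * (4 / t0 * (b / t0 + 2 * v)) * (Q * (y * y)) +
      8 / t0 * X * b * (M * (y * y)) ≤
      (1 + 4 / t0 * (1 / t0 + 2) * (1 + Q) + 8 / t0 * X * M) * y * (b + v) := by
  have h1 : b / t0 + 2 * v ≤ (1 / t0 + 2) * (b + v) := by
    have e1 : 0 ≤ 2 * b + v / t0 := by positivity
    have e2 : (1 / t0 + 2) * (b + v) = b / t0 + 2 * v + (2 * b + v / t0) := by ring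
    rw [e2]
    linarith
  have h2 : y / 2 * (4 / t0 * (b / t0 + 2 * v)) +
      1 / (2 * y) * (4 / t0 * (b / t0 + 2 * v)) * (Q * (y * y)) =
      4 / t0 * (b / t0 + 2 * v) * ((1 + Q) / 2 * y) := by
    field_simp
  have h3 : 4 / t0 * (b / t0 + 2 * v) * ((1 + Q) / 2 * y) ≤
      4 / t0 * ((1 / t0 + 2) * (b + v)) * ((1 + Q) * y) := by
    have : (1 + Q) / 2 * y ≤ (1 + Q) * y := by
      have : 0 ≤ (1 + Q) * y := by positivity
      linarith
    gcongr
  have h4 : 8 / t0 * X * b * (M * (y * y)) ≤ 8 / t0 * X * (b + v) * (M * y) := by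
    have e1 : y * y ≤ y := by
      have := mul_le_mul_of_nonneg_left hy1 hy.le
      linarith
    have e2 : b ≤ b + v := by linarith
    gcongr
  have h5 : 0 ≤ y * (b + v) := by positivity
  rw [h2]
  have h6 : (1 + 4 / t0 * (1 / t0 + 2) * (1 + Q) + 8 / t0 * X * M) * y * (b + v) =
      y * (b + v) + (4 / t0 * ((1 / t0 + 2) * (b + v)) * ((1 + Q) * y) +
        8 / t0 * X * (b + v) * (M * y)) := by ring
  rw [h6]
  linarith

/-- module QEV -/
theorem qev_thm (hQGR : QGRStmt E) (hQMO : QMOStmt E) (hQCA : QCAStmt E) (hCOV : COVStmt E)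
    (hBAS : BASStmt E) (hBAY : BAYStmt E) (hCVR : CVRStmt E) (hPWB : PWBStmt E)
    (hRGC : RGCStmt E) : QEVStmt E := by
  intro t0 ht0 ht01
  set n : ℝ := (Module.finrank ℝ E : ℝ) with hn
  set X : ℝ := 2 * n / t0 with hX
  set Q1 : ℝ := 9 * n ^ 3 / t0 ^ 3 with hQ1
  set M1 : ℝ := n ^ 2 / t0 ^ 2 with hM1
  have hn0 : 0 ≤ n := Nat.cast_nonneg _
  have hX0 : 0 ≤ X := by positivity
  have hQ0 : 0 ≤ Q1 := by positivity
  have hM0 : 0 ≤ M1 := by positivity
  set C : ℝ := 1 + 4 / t0 * (1 / t0 + 2) * (1 + Q1) + 8 / t0 * X * M1 with hC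
  refine ⟨C, by
    have : 0 ≤ 4 / t0 * (1 / t0 + 2) * (1 + Q1) + 8 / t0 * X * M1 := by positivity
    linarith, ?_⟩
  have hC0 : 0 ≤ C := by positivity
  intro t ht ht1 U hU hcov ι _ b B c s hB hs hs1
  classical
  have htp : 0 < t := ht0.trans_le ht
  obtain ⟨hbd1, hbd2⟩ := qe_bd hQMO hQCA ht0 ht hU hcov b
  obtain ⟨hqdR, hmdR, -⟩ := hQMO U t hU ι b
  obtain ⟨hq1, hqG, hqgr, hqint⟩ := hQGR ι b B c hB
  set q : E → ℝ := qf b B c with hq
  set BB2 : ℝ := ∑ i, ∑ j, (B i j) ^ 2 with hBB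
  set V2 : ℝ := ∑ i, (qv b B c U i) ^ 2 with hV2
  have hBB0 : 0 ≤ BB2 := Finset.sum_nonneg fun i _ => Finset.sum_nonneg fun j _ => sq_nonneg _
  have hV20 : 0 ≤ V2 := Finset.sum_nonneg fun i _ => sq_nonneg _
  have hN2 : N2 B (qv b B c U) = BB2 + V2 := rfl
  have hwR : ∀ i, RG (fun r θ => cv (pw U r θ) q (li (b i))) := fun i =>
    hCVR U t hU q (li (b i)) hqG (trp_li _)
  have hWR : RG (fun r θ => ∑ i, cv (pw U r θ) q (li (b i)) * cv (pw U r θ) q (li (b i))) :=
    evj_sum hRGC Finset.univ fun i => hRGC.2.2.1 _ _ (hwR i) (hwR i)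
  have hqR : RG (fun r θ => cv (pw U r θ) q q) := hCVR U t hU q q hqG hqG
  -- pointwise bound
  have hpt : ∀ r : ℝ, 0 < r → ∀ θ : E,
      (∑ i, cv (pw U r θ) q (li (b i)) * cv (pw U r θ) q (li (b i))) ≤
      cv (pw U r θ) q q + (Real.sqrt r / 2 * (4 / t0 * (BB2 / t0 + 2 * V2)) +
      (1 / (2 * Real.sqrt r) * (4 / t0 * (BB2 / t0 + 2 * V2))) * qd b U r θ +
      (8 / t0 * X * BB2) * md b U r θ) := by
    intro r hr θ
    have hy : 0 < Real.sqrt r := Real.sqrt_pos.2 hr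
    obtain ⟨hq0, hqX, hcv⟩ := hbd1 r θ hr.le
    set x := Real.sqrt (qd b U r θ) with hx
    have hx0 : 0 ≤ x := Real.sqrt_nonneg _
    have hPt : PP (pw U r θ) (t + r) := (hPWB U t hU).1 r θ hr.le
    have hPt0 : PP (pw U r θ) t0 := hBAS.1 _ _ t0 hPt ht0 (by linarith)
    have h1 := qv_dual hBAS hPt hcv hqG b
    have h2 : (∑ i, cv (pw U r θ) q (li (b i)) * cv (pw U r θ) q (li (b i))) =
        ∑ i, (cv (pw U r θ) q (li (b i))) ^ 2 := Finset.sum_congr rfl fun i _ => (pow_two _).symm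
    rw [h2]
    refine h1.trans ?_
    have h3 : cv (pw U r θ) q q ≤ 1 / t0 * ∫ x, ‖fderiv ℝ q x‖ ^ 2 ∂(mu (pw U r θ)) :=
      hBAS.2.2.1 _ _ hPt0 q hq1 hqG.2 hqgr (1 / t0) (hBAS.2.1 _ _ hPt0)
    rw [hqint (pw U r θ) (t + r) hPt] at h3
    have h4 := qv_tr hPt (hBAS.2.2.2.2.1 _ _ hPt0) b B hB
    have h5 := qe_v b U B c r θ (one_pos)
    have h6 : cv (pw U r θ) q q ≤ 4 / t0 * (BB2 / t0 + 2 * V2 + 2 * (BB2 * md b U r θ)) := by
      refine h3.trans ?_
      have e1 : (B * cm b (pw U r θ) * B).trace + ∑ i, (qv b B c (pw U r θ) i) ^ 2 ≤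
          BB2 / t0 + 2 * V2 + 2 * (BB2 * md b U r θ) := by
        have e2 : 1 / t0 * BB2 = BB2 / t0 := by ring
        rw [← e2]
        norm_num at h5
        linarith
      have e3 : 1 / t0 * (4 * ((B * cm b (pw U r θ) * B).trace +
          ∑ i, (qv b B c (pw U r θ) i) ^ 2)) = 4 / t0 * ((B * cm b (pw U r θ) * B).trace +
          ∑ i, (qv b B c (pw U r θ) i) ^ 2) := by ring
      rw [e3]
      exact mul_le_mul_of_nonneg_left e1 (by positivity)
    have hmd := qe_md b U r θ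
    have h7 : x ≤ (Real.sqrt r + qd b U r θ / Real.sqrt r) / 2 := qe_sqrt hq0 hr
    have h8 : x * cv (pw U r θ) q q ≤ x * (4 / t0 * (BB2 / t0 + 2 * V2)) +
        x * (8 / t0 * (BB2 * md b U r θ)) := by
      refine (mul_le_mul_of_nonneg_left h6 hx0).trans (le_of_eq ?_)
      ring
    have h9 : x * (4 / t0 * (BB2 / t0 + 2 * V2)) ≤
        (Real.sqrt r + qd b U r θ / Real.sqrt r) / 2 * (4 / t0 * (BB2 / t0 + 2 * V2)) :=
      mul_le_mul_of_nonneg_right h7 (by positivity)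
    have h10 : x * (8 / t0 * (BB2 * md b U r θ)) ≤ X * (8 / t0 * (BB2 * md b U r θ)) :=
      mul_le_mul_of_nonneg_right hqX (by positivity)
    have h11 : (Real.sqrt r + qd b U r θ / Real.sqrt r) / 2 * (4 / t0 * (BB2 / t0 + 2 * V2)) =
        Real.sqrt r / 2 * (4 / t0 * (BB2 / t0 + 2 * V2)) +
        (1 / (2 * Real.sqrt r) * (4 / t0 * (BB2 / t0 + 2 * V2))) * qd b U r θ := by
      field_simp
    rw [h11] at h9
    have h12 : X * (8 / t0 * (BB2 * md b U r θ)) = (8 / t0 * X * BB2) * md b U r θ := by ring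
    rw [h12] at h10
    have h13 : (1 + x) * cv (pw U r θ) q q = cv (pw U r θ) q q + x * cv (pw U r θ) q q := by ring
    rw [h13]
    linarith
  -- the means
  have hle : ∀ r ∈ Ioo 0 s, EX U r (fun θ => ∑ i, cv (pw U r θ) q (li (b i)) *
      cv (pw U r θ) q (li (b i))) ≤ cv U q q + C * Real.sqrt s * (BB2 + V2) := by
    intro r hr
    have hy : 0 < Real.sqrt r := Real.sqrt_pos.2 hr.1
    obtain ⟨-, hadd, -, hcst, hmono, -, -⟩ := hBAY U t hU r hr.1.le
    have hqdG : GC (fun θ => qd b U r θ) := (hRGC.2.2.2.2.2.1 _ hqdR r hr.1).1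
    have hmdG : GC (fun θ => md b U r θ) := (hRGC.2.2.2.2.2.1 _ hmdR r hr.1).1
    have hWG := (hRGC.2.2.2.2.2.1 _ hWR r hr.1).1
    have hqqG := (hRGC.2.2.2.2.2.1 _ hqR r hr.1).1
    have haG := qe_gcaff hqdG hmdG (Real.sqrt r / 2 * (4 / t0 * (BB2 / t0 + 2 * V2)))
      (1 / (2 * Real.sqrt r) * (4 / t0 * (BB2 / t0 + 2 * V2))) (8 / t0 * X * BB2)
    refine (hmono _ _ hWG (GC.add hqqG haG) (hpt r hr.1)).trans ?_
    rw [hadd _ _ hqqG haG, qe_aff hBAY hU hr.1.le hqdG hmdG]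
    obtain ⟨hE1, hE2⟩ := hbd2 r hr.1
    have h0 : EX U r (fun θ => cv (pw U r θ) q q) ≤ cv U q q := by
      obtain ⟨hint, heq⟩ := hCOV U t hU q q hqG hqG ι b r hr.1
      rw [heq]
      have : 0 ≤ ∫ z in (0:ℝ)..r, EX U z (fun θ => ∑ i, cv (pw U z θ) q (li (b i)) *
          cv (pw U z θ) q (li (b i))) := by
        refine intervalIntegral.integral_nonneg hr.1.le fun z hz => ?_
        unfold EX
        refine integral_nonneg fun x => integral_nonneg fun g => ?_
        exact Finset.sum_nonneg fun i _ => mul_self_nonneg _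
      linarith
    have h1 : 1 / (2 * Real.sqrt r) * (4 / t0 * (BB2 / t0 + 2 * V2)) *
        EX U r (fun θ => qd b U r θ) ≤
        1 / (2 * Real.sqrt r) * (4 / t0 * (BB2 / t0 + 2 * V2)) * (Q1 * r) :=
      mul_le_mul_of_nonneg_left hE1 (by positivity)
    have h2 : 8 / t0 * X * BB2 * EX U r (fun θ => md b U r θ) ≤
        8 / t0 * X * BB2 * (M1 * r) :=
      mul_le_mul_of_nonneg_left hE2 (by positivity)
    have hrr : r = Real.sqrt r * Real.sqrt r := (Real.mul_self_sqrt hr.1.le).symm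
    have hys : Real.sqrt r ≤ Real.sqrt s := Real.sqrt_le_sqrt hr.2.le
    have hy1 : Real.sqrt r ≤ 1 := Real.sqrt_le_iff.2 ⟨zero_le_one, by linarith [hr.2]⟩
    have h5 := qv_num ht0 hBB0 hV20 hQ0 hM0 hX0 hy hy1
    rw [← hrr] at h5
    have h6 : C * Real.sqrt r * (BB2 + V2) ≤ C * Real.sqrt s * (BB2 + V2) := by
      have : 0 ≤ BB2 + V2 := by positivity
      gcongr
    linarith
  obtain ⟨hint, heq⟩ := hCOV U t hU q q hqG hqG ι b s hs
  have h1 : (∫ r in (0:ℝ)..s, EX U r (fun θ => ∑ i, cv (pw U r θ) q (li (b i)) *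
      cv (pw U r θ) q (li (b i)))) ≤ ∫ _ in (0:ℝ)..s, (cv U q q + C * Real.sqrt s * (BB2 + V2)) :=
    intervalIntegral.integral_mono_on_of_le_Ioo hs.le hint intervalIntegrable_const hle
  rw [intervalIntegral.integral_const, sub_zero, smul_eq_mul] at h1
  rw [hN2]
  linarith

end Pool.Agent.H32.KA
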